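import Pool.Agent.Y748.SR.Stm3

/-! # Project SR: jobs SR-MONO and SR-STP -/

open Finset Filter Topology

set_option autoImplicit false

namespace Pool.Agent.Y705.SR
open Pool.Agent.Y748.SR

theorem exists_disj (Q : Finset ℤ) (n : ℕ) : ∃ T : Finset ℤ, Disjoint T Q ∧ T.card = n := by
  obtain ⟨T, hT, hn⟩ := (Q.finite_toSet.infinite_compl).exists_subset_card_eq n
  refine ⟨T, ?_, hn⟩
  rw [Finset.disjoint_left]
  intro m hm hmQ
  exact hT hm hmQ

theorem hh_empty {X : Type} (g : Finset X → Finset ℤ → ℝ) (A : Finset X) (Q : Finset ℤ)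
    (y : ℤ → ℝ) : hh g A Q ∅ y = g A Q := by
  unfold hh
  rw [Finset.powerset_empty, Finset.sum_singleton]
  simp

theorem hol_pos {X : Type} {g : Finset X → Finset ℤ → ℝ} {A : Finset X} {e : Finset ℤ → ℝ}
    (h : Hol g A e) (k : ℕ) (hp : ∀ T : Finset ℤ, T.card = k → 0 < e T) (Q : Finset ℤ) :
    0 < g A Q := by
  obtain ⟨T, hT, hn⟩ := exists_disj Q k
  have h1 := le_hasSum (h.sum Q) T (fun T' _ => by
    split_ifs
    · exact h.nonneg T'
    · exact le_rfl)
  rw [if_pos hT] at h1
  exact lt_of_lt_of_le (hp T hn) h1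

theorem hol_mono {X : Type} {g : Finset X → Finset ℤ → ℝ} {A : Finset X} {e : Finset ℤ → ℝ}
    (h : Hol g A e) (Q : Finset ℤ) (n : ℤ) : g A (insert n Q) ≤ g A Q := by
  refine hasSum_le (fun T => ?_) (h.sum (insert n Q)) (h.sum Q)
  by_cases h1 : Disjoint T (insert n Q)
  · have h2 : Disjoint T Q := by
      rw [Finset.disjoint_insert_right] at h1
      exact h1.2
    rw [if_pos h1, if_pos h2]
  · rw [if_neg h1]
    split_ifs
    · exact h.nonneg T
    · exact le_rfl

theorem t_MONO (_ : S_HOLH) : S_MONO := by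
  intro X _ g a B i j e0 e1 e2 h S R
  have hiC : i ∉ insert j B := by
    rw [Finset.mem_insert]
    rintro (h1 | h1)
    · exact h.ij h1
    · exact h.iB h1
  have step : ∀ (Q : Finset ℤ) (n : ℤ), n ∉ Q →
      g (insert i (insert j B)) (insert n Q) ≤ g (insert i (insert j B)) Q := by
    intro Q n hn
    have h1 := h.sys.rat (insert j B) i Q ∅ n (fun _ => 0) hiC (Finset.disjoint_empty_right _) hn
      (Finset.notMem_empty _)
    simp only [hh_empty] at h1
    have h2 := hol_pos h.h2 _ h.p2 Q
    have h3 := hol_mono h.h2 Q n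
    have h4 := h.sys.nonneg (insert i (insert j B)) Q
    have h5 := mul_le_mul_of_nonneg_left h3 h4
    have h6 : g (insert j B) Q * g (insert i (insert j B)) (insert n Q) ≤
        g (insert j B) Q * g (insert i (insert j B)) Q := by
      linarith
    exact le_of_mul_le_mul_left h6 h2
  induction R using Finset.induction_on with
  | empty => rw [Finset.union_empty]
  | insert n R _ ih =>
    rw [Finset.union_insert]
    by_cases hm : n ∈ S ∪ R
    · rw [Finset.insert_eq_of_mem hm]
      exact ih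
    · exact (step _ _ hm).trans ih

theorem t_STP (hH : S_HOLH) (hP : S_POS) : S_STP := by
  intro X _ g a B i j e0 e1 e2 h Q R y hQR hy
  have hiC : i ∉ insert j B := by
    rw [Finset.mem_insert]
    rintro (h1 | h1)
    · exact h.ij h1
    · exact h.iB h1
  refine hP X g a h.sys (insert j B) i hiC ?_ Q R y hQR hy
  intro Q R y hQR hy
  have h1 := hH X g (insert j B) e2 h.h2 Q R y hQR
  obtain ⟨T, hT, hn⟩ := exists_disj Q (B.card + 1)
  have h2 := le_hasSum h1 T (fun T' _ => by
    split_ifs
    · exact mul_nonneg (h.h2.nonneg T') (Finset.prod_nonneg fun n _ => (hy n).le)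
    · exact le_rfl)
  rw [if_pos hT] at h2
  exact lt_of_lt_of_le (mul_pos (h.p2 T hn) (Finset.prod_pos fun n _ => hy n)) h2

end Pool.Agent.Y705.SR
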